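import Mathlib

/-!
# The congruence `(X - 1)^n ≡ X^n - 1 (mod n, X^r - 1)`: `n` is odd, and the cofactors are large
-/

set_option autoImplicit false

open Polynomial

namespace Pool.Agent.H881.AK

/-- the congruence `(X - 1)^n ≡ X^n - 1 (mod n, X^r - 1)` -/
def Cong (n r : ℕ) : Prop :=
  (X ^ r - 1 : (ZMod n)[X]) ∣ (X - 1) ^ n - (X ^ n - 1)

section general

variable {R : Type*} [CommRing R]

theorem dvd_pow_mul (r k : ℕ) : (X ^ r - 1 : R[X]) ∣ X ^ (r * k) - 1 := by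
  have h := sub_dvd_pow_sub_pow (X ^ r : R[X]) 1 k
  rwa [one_pow, ← pow_mul] at h

theorem dvd_sub_mod (r n : ℕ) : (X ^ r - 1 : R[X]) ∣ X ^ n - X ^ (n % r) := by
  have h : (X ^ n - X ^ (n % r) : R[X]) = X ^ (n % r) * (X ^ (r * (n / r)) - 1) := by
    rw [mul_sub, mul_one, ← pow_add, Nat.mod_add_div]
  rw [h]
  exact (dvd_pow_mul r (n / r)).mul_left _

theorem monic_W {r : ℕ} (hr : r ≠ 0) : (X ^ r - 1 : R[X]).Monic := by
  have h := monic_X_pow_sub_C (1 : R) hr
  rwa [C_1] at h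

theorem natDegree_W [Nontrivial R] (r : ℕ) : (X ^ r - 1 : R[X]).natDegree = r := by
  have h := natDegree_X_pow_sub_C (n := r) (r := (1 : R))
  rwa [C_1] at h

end general

/-- `n` is odd -/
theorem odd_of_cong {n r : ℕ} (hn : 2 < n) (hr : 2 ≤ r) (hc : Nat.Coprime n r) (h : Cong n r) :
    Odd n := by
  by_contra hodd
  have hev : Even n := Nat.not_odd_iff_even.1 hodd
  have : Fact (1 < n) := ⟨by omega⟩
  unfold Cong at h
  set W : (ZMod n)[X] := X ^ r - 1 with hW
  -- substitute `X ^ (r - 1)`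
  have h1 : W ∣ (X ^ (r - 1) - 1) ^ n - ((X ^ (r - 1)) ^ n - 1) := by
    obtain ⟨E, hE⟩ := h
    have h2 := congrArg (fun P : (ZMod n)[X] => P.comp (X ^ (r - 1))) hE
    simp only [hW, sub_comp, pow_comp, X_comp, one_comp, mul_comp] at h2
    rw [h2]
    have h3 : W ∣ (X ^ (r - 1)) ^ r - 1 := by
      rw [← pow_mul, mul_comm (r - 1) r]
      exact dvd_pow_mul r (r - 1)
    exact h3.mul_right _
  have h2 : W ∣ (X ^ r - X) ^ n - (X ^ r) ^ n + X ^ n := by
    have h3 := h1.mul_left (X ^ n)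
    have h4 : (X ^ n * ((X ^ (r - 1) - 1) ^ n - ((X ^ (r - 1)) ^ n - 1)) : (ZMod n)[X]) =
        (X ^ r - X) ^ n - (X ^ r) ^ n + X ^ n := by
      have h5 : (X ^ r : (ZMod n)[X]) = X * X ^ (r - 1) := by
        rw [← pow_succ']
        congr 1
        omega
      rw [h5, show (X * X ^ (r - 1) - X : (ZMod n)[X]) = X * (X ^ (r - 1) - 1) by ring, mul_pow,
        mul_pow]
      ring
    rwa [h4] at h3
  have h3 : W ∣ (X - 1) ^ n - 1 + X ^ n := by
    have a1 : W ∣ (X ^ r - X) ^ n - (1 - X) ^ n := by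
      have := sub_dvd_pow_sub_pow (X ^ r - X : (ZMod n)[X]) (1 - X) n
      rwa [show (X ^ r - X - (1 - X) : (ZMod n)[X]) = W by rw [hW]; ring] at this
    have a2 : W ∣ (X ^ r) ^ n - 1 := by
      rw [← pow_mul]
      exact dvd_pow_mul r n
    have a3 : ((1 - X) ^ n : (ZMod n)[X]) = (X - 1) ^ n := by
      rw [← neg_sub (X : (ZMod n)[X]) 1, hev.neg_pow]
    have a4 := (h2.sub a1).add a2
    rw [a3] at a4
    have a5 : ((X ^ r - X) ^ n - (X ^ r) ^ n + X ^ n - ((X ^ r - X) ^ n - (X - 1) ^ n) +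
        ((X ^ r) ^ n - 1) : (ZMod n)[X]) = (X - 1) ^ n - 1 + X ^ n := by ring
    rwa [a5] at a4
  have h4 : W ∣ 2 * X ^ (n % r) - 2 := by
    have a1 := (h3.sub h).sub ((dvd_sub_mod r n).mul_left 2)
    have a2 : ((X - 1) ^ n - 1 + X ^ n - ((X - 1) ^ n - (X ^ n - 1)) -
        2 * (X ^ n - X ^ (n % r)) : (ZMod n)[X]) = 2 * X ^ (n % r) - 2 := by ring
    rwa [a2] at a1
  have hs0 : n % r ≠ 0 := by
    intro h0
    have h5 : r ∣ n := Nat.dvd_of_mod_eq_zero h0
    have h6 := Nat.Coprime.eq_one_of_dvd hc.symm h5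
    omega
  have hsr : n % r < r := Nat.mod_lt _ (by omega)
  have h5 : (2 * X ^ (n % r) - 2 : (ZMod n)[X]) = 0 := by
    by_contra h6
    refine (monic_W (R := ZMod n) (by omega : r ≠ 0)).not_dvd_of_natDegree_lt h6 ?_ h4
    rw [natDegree_W]
    refine lt_of_le_of_lt ?_ hsr
    compute_degree
  have h6 := congrArg (fun P : (ZMod n)[X] => P.coeff (n % r)) h5
  have h7 : (2 : ZMod n) = 0 := by
    have h8 : (2 * X ^ (n % r) - 2 : (ZMod n)[X]) = C 2 * X ^ (n % r) - C 2 := by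
      rw [show (C 2 : (ZMod n)[X]) = 2 from map_ofNat C 2]
    simp only [h8, coeff_sub, coeff_C_mul, coeff_X_pow_self, mul_one, coeff_C, if_neg hs0,
      sub_zero, coeff_zero] at h6
    exact h6
  have h8 : ((2 : ℕ) : ZMod n) = 0 := by exact_mod_cast h7
  rw [ZMod.natCast_eq_zero_iff] at h8
  have := Nat.le_of_dvd (by norm_num) h8
  omega

/-- over a field with `q` prime: if `X ^ r - 1` divides a power of `F`, it divides `F` -/
theorem dvd_of_pow {q r k : ℕ} [Fact q.Prime] (hr : ¬ q ∣ r) {F : (ZMod q)[X]}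
    (h : (X ^ r - 1 : (ZMod q)[X]) ∣ F ^ k) : (X ^ r - 1 : (ZMod q)[X]) ∣ F := by
  have h1 : (X ^ r - 1 : (ZMod q)[X]).Separable := by
    rw [X_pow_sub_one_separable_iff]
    rw [Ne, ZMod.natCast_eq_zero_iff]
    exact hr
  exact h1.squarefree.isRadical k F h

theorem X_mul_dvd {R : Type*} [CommRing R] {r : ℕ} (hr : 0 < r) {F : R[X]}
    (h : (X ^ r - 1 : R[X]) ∣ F) (h0 : F.coeff 0 = 0) : X * (X ^ r - 1 : R[X]) ∣ F := by
  refine IsCoprime.mul_dvd ?_ (X_dvd_iff.2 h0) h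
  refine ⟨X ^ (r - 1), -1, ?_⟩
  have h5 : (X ^ r : R[X]) = X ^ (r - 1) * X := by
    rw [← pow_succ]
    congr 1
    omega
  rw [← h5]
  ring

/-- a nonzero polynomial of degree at most `m - 1`, zero at `0` and divisible by `X ^ r - 1` -/
theorem deg_bound {q r m : ℕ} [Fact q.Prime] (hr : 0 < r) {F : (ZMod q)[X]} (hF : F ≠ 0)
    (hd : F.natDegree < m) (h : (X ^ r - 1 : (ZMod q)[X]) ∣ F) (h0 : F.coeff 0 = 0) : r + 2 ≤ m := by
  have h1 := natDegree_le_of_dvd (X_mul_dvd hr h h0) hF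
  rw [Monic.natDegree_mul monic_X (monic_W (by omega)), natDegree_X, natDegree_W] at h1
  omega

/-- the polynomial `(X - 1) ^ m - X ^ m + 1` -/
noncomputable def FF (R : Type*) [CommRing R] (m : ℕ) : R[X] := (X - 1) ^ m - (X ^ m - 1)

theorem FF_coeff_zero {R : Type*} [CommRing R] {m : ℕ} (hm : Odd m) : (FF R m).coeff 0 = 0 := by
  rw [coeff_zero_eq_eval_zero, FF]
  simp only [eval_sub, eval_pow, eval_X, eval_one, zero_sub, hm.neg_one_pow]
  rw [zero_pow (by rintro rfl; exact absurd hm (by decide))]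
  ring

theorem FF_coeff_one {R : Type*} [CommRing R] {m : ℕ} (hm : Odd m) (hm1 : 1 < m) :
    (FF R m).coeff 1 = m := by
  have h1 : (derivative (FF R m)).coeff 0 = (FF R m).coeff 1 := by
    rw [coeff_derivative]
    simp
  rw [← h1, coeff_zero_eq_eval_zero, FF]
  have he : Even (m - 1) := by
    obtain ⟨a, ha⟩ := hm
    exact ⟨a, by omega⟩
  simp only [derivative_sub, derivative_pow, derivative_X, derivative_one, eval_sub, eval_mul,
    eval_pow, eval_X, eval_one, sub_zero, mul_one, eval_C, zero_sub, he.neg_one_pow,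
    zero_pow (show m - 1 ≠ 0 by omega), mul_zero]

theorem FF_natDegree {R : Type*} [CommRing R] [Nontrivial R] {m : ℕ} (hm : 1 < m) :
    (FF R m).natDegree < m := by
  have h1 : ((X - 1 : R[X]) ^ m).Monic := by
    have := (monic_X_sub_C (1 : R)).pow m
    rwa [C_1] at this
  have h2 : ((X - 1 : R[X]) ^ m).natDegree = m := by
    have h3 : (X - 1 : R[X]).Monic := by
      have := monic_X_sub_C (1 : R)
      rwa [C_1] at this
    rw [h3.natDegree_pow]
    have h4 : (X - 1 : R[X]).natDegree = 1 := by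
      have := natDegree_X_sub_C (1 : R)
      rwa [C_1] at this
    rw [h4, mul_one]
  have h3 : (X ^ m - 1 : R[X]).Monic := monic_W (by omega)
  have h4 : (X ^ m - 1 : R[X]).natDegree = m := natDegree_W m
  have h5 : (FF R m).degree < ((X - 1 : R[X]) ^ m).degree := by
    refine degree_sub_lt_left ?_ h1.ne_zero ?_
    · rw [degree_eq_natDegree h1.ne_zero, degree_eq_natDegree h3.ne_zero, h2, h4]
    · rw [h1.leadingCoeff, h3.leadingCoeff]
  rw [degree_eq_natDegree h1.ne_zero, h2] at h5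
  by_cases h0 : FF R m = 0
  · rw [h0, natDegree_zero]
    omega
  · exact (natDegree_lt_iff_degree_lt h0).2 h5

/-- reduction modulo a prime divisor -/
theorem red {n q r : ℕ} (hq : q ∣ n) (h : Cong n r) :
    (X ^ r - 1 : (ZMod q)[X]) ∣ FF (ZMod q) n := by
  obtain ⟨E, hE⟩ := h
  refine ⟨E.map (ZMod.castHom hq (ZMod q)), ?_⟩
  have h2 := congrArg (fun P : (ZMod n)[X] => P.map (ZMod.castHom hq (ZMod q))) hE
  simpa only [FF, Polynomial.map_sub, Polynomial.map_pow, Polynomial.map_mul, Polynomial.map_X,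
    Polynomial.map_one] using h2

theorem FF_pow {q k m : ℕ} [Fact q.Prime] : FF (ZMod q) (m * q ^ k) = FF (ZMod q) m ^ q ^ k := by
  unfold FF
  rw [sub_pow_char_pow, sub_pow_char_pow, one_pow, ← pow_mul, ← pow_mul]

/-- the cofactor of a prime power is `1` or at least `r + 2` -/
theorem cofactor {n r q k m : ℕ} (hq : q.Prime) (hk : k ≠ 0) (hn : n = m * q ^ k) (hm : ¬ q ∣ m)
    (hm1 : 1 < m) (hodd : Odd n) (hr : 0 < r) (hc : Nat.Coprime n r) (h : Cong n r) :
    r + 2 ≤ m := by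
  have : Fact q.Prime := ⟨hq⟩
  have hqn : q ∣ n := by
    rw [hn]
    exact (dvd_pow_self q hk).mul_left m
  have hqr : ¬ q ∣ r := fun h1 => hq.one_lt.ne' (Nat.eq_one_of_dvd_coprimes hc hqn h1)
  have h1 := red hqn h
  rw [hn, FF_pow] at h1
  have h2 := dvd_of_pow hqr h1
  have hmo : Odd m := by
    rw [hn, Nat.odd_mul] at hodd
    exact hodd.1
  refine deg_bound hr ?_ (FF_natDegree hm1) h2 (FF_coeff_zero hmo)
  intro h0
  have h3 := FF_coeff_one (R := ZMod q) hmo hm1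
  rw [h0, coeff_zero] at h3
  exact hm ((ZMod.natCast_eq_zero_iff m q).1 h3.symm)

end Pool.Agent.H881.AK
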