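import Pool.Agent.H881.AK.Sq

/-!
# The congruence `(X - 1)^n ≡ X^n - 1 (mod n, X^r - 1)`: a local criterion
-/

set_option autoImplicit false

open Polynomial

namespace Pool.Agent.H881.AK

/-- evaluation of the congruence at an element whose `r`-th power is `1` -/
theorem eval_cong {N n r : ℕ} {A : Type*} [CommRing A] [Algebra (ZMod N) A]
    (h : (X ^ r - 1 : (ZMod N)[X]) ∣ (X - 1) ^ n - (X ^ n - 1)) (y : A) (hy : y ^ r = 1) :
    (y - 1) ^ n = y ^ n - 1 := by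
  obtain ⟨E, hE⟩ := h
  have h1 := congrArg (fun P : (ZMod N)[X] => aeval y P) hE
  simp only [map_sub, map_pow, aeval_X, map_one, map_mul, hy, sub_self, zero_mul] at h1
  exact sub_eq_zero.1 h1

theorem root_pow {N r : ℕ} : (AdjoinRoot.root (X ^ r - 1 : (ZMod N)[X])) ^ r = 1 := by
  have h := AdjoinRoot.mk_self (f := (X ^ r - 1 : (ZMod N)[X]))
  rw [map_sub, map_pow, AdjoinRoot.mk_X, map_one] at h
  exact sub_eq_zero.1 h

theorem dvd_iff {N n r : ℕ} : (X ^ r - 1 : (ZMod N)[X]) ∣ (X - 1) ^ n - (X ^ n - 1) ↔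
    (AdjoinRoot.root (X ^ r - 1 : (ZMod N)[X]) - 1) ^ n =
      (AdjoinRoot.root (X ^ r - 1 : (ZMod N)[X])) ^ n - 1 := by
  rw [← AdjoinRoot.mk_eq_zero]
  simp only [map_sub, map_pow, AdjoinRoot.mk_X, map_one]
  rw [sub_eq_zero]

theorem cast_zero {N : ℕ} (A : Type*) [CommRing A] [Algebra (ZMod N) A] : ((N : ℕ) : A) = 0 := by
  have h := map_natCast (algebraMap (ZMod N) A) N
  rw [← h, ZMod.natCast_self, map_zero]

theorem exists_inv {A : Type*} [CommRing A] {x : A} {n r : ℕ} (hr : 0 < r) (hx : x ^ r = 1)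
    (hc : Nat.Coprime n r) : ∃ k : ℕ, x ^ (k * n) = x := by
  rcases Nat.lt_or_ge 1 r with h1 | h1
  · obtain ⟨k, -, hk⟩ := Nat.exists_mul_mod_eq_one_of_coprime hc h1
    refine ⟨k, ?_⟩
    rw [mul_comm, ← Nat.mod_add_div (n * k) r, hk, pow_add, pow_mul, hx, one_pow, mul_one, pow_one]
  · have h2 : r = 1 := by omega
    rw [h2, pow_one] at hx
    exact ⟨1, by rw [hx, one_pow]⟩

theorem sub_dvd {A : Type*} [CommRing A] {q : ℕ} (hq : q.Prime) (y : A) :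
    (q : A) ∣ (y ^ q - 1) - (y - 1) ^ q := by
  obtain ⟨s, hs⟩ := exists_add_pow_prime_eq hq (y - 1) 1
  rw [sub_add_cancel, one_pow] at hs
  refine ⟨(y - 1) * 1 * s, ?_⟩
  rw [hs]
  ring

theorem pow_eq_of_dvd {A : Type*} [CommRing A] {q a : ℕ} (h0 : ((q ^ a : ℕ) : A) = 0)
    {u v : A} (h : (q : A) ∣ u - v) (M : ℕ) : u ^ (q ^ a * M) = v ^ (q ^ a * M) := by
  have h1 := dvd_sub_pow_of_dvd_sub h a
  have h2 : ((q : A) ^ (a + 1)) = 0 := by
    rw [pow_succ]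
    push_cast at h0
    rw [h0, zero_mul]
  rw [h2, zero_dvd_iff, sub_eq_zero] at h1
  rw [pow_mul, h1, ← pow_mul]

theorem iter {A : Type*} [CommRing A] {q r : ℕ}
    (h : ∀ y : A, y ^ r = 1 → (y - 1) ^ q = y ^ q - 1) (j : ℕ) :
    ∀ y : A, y ^ r = 1 → (y - 1) ^ (q ^ j) = y ^ (q ^ j) - 1 := by
  induction j with
  | zero => intro y _; simp
  | succ j ih =>
    intro y hy
    rw [pow_succ, pow_mul, ih y hy, h (y ^ (q ^ j)) (by rw [← pow_mul, mul_comm, pow_mul, hy,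
      one_pow]), ← pow_mul]

/-- at a prime power `q ^ a` which divides `n`, the congruence holds with the exponent `q` -/
theorem local_q {q a M r : ℕ} (hq : q.Prime) (hr : 0 < r) (hc : Nat.Coprime (M * q ^ a) r)
    (h : (X ^ r - 1 : (ZMod (q ^ a))[X]) ∣ (X - 1) ^ (M * q ^ a) - (X ^ (M * q ^ a) - 1)) :
    (X ^ r - 1 : (ZMod (q ^ a))[X]) ∣ (X - 1) ^ q - (X ^ q - 1) := by
  rw [dvd_iff]
  set x := AdjoinRoot.root (X ^ r - 1 : (ZMod (q ^ a))[X]) with hx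
  have hxr : x ^ r = 1 := root_pow
  have h0 : ((q ^ a : ℕ) : AdjoinRoot (X ^ r - 1 : (ZMod (q ^ a))[X])) = 0 :=
    cast_zero (N := q ^ a) _
  obtain ⟨k, hk⟩ := exists_inv hr hxr hc
  have hy : (x ^ k) ^ r = 1 := by rw [← pow_mul, mul_comm, pow_mul, hxr, one_pow]
  have h1 := eval_cong h (x ^ k) hy
  have h2 := eval_cong h ((x ^ k) ^ q) (by rw [← pow_mul, mul_comm, pow_mul, hy, one_pow])
  have e1 : (x ^ k) ^ (M * q ^ a) = x := by rw [← pow_mul, hk]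
  have e2 : ((x ^ k) ^ q) ^ (M * q ^ a) = x ^ q := by
    rw [← pow_mul, mul_comm q, pow_mul, e1]
  rw [e1] at h1
  rw [e2] at h2
  have h3 := pow_eq_of_dvd h0 (sub_dvd hq (x ^ k)) M
  rw [mul_comm (q ^ a) M, h2] at h3
  rw [h3, ← h1, ← pow_mul, ← pow_mul, mul_comm]

/-- modulo `q` the exponent can be replaced by its part prime to `q` -/
theorem local_m {q a m r : ℕ} (hq : q.Prime) (hr : 0 < r) (hc : Nat.Coprime (q ^ a) r)
    (h : (X ^ r - 1 : (ZMod q)[X]) ∣ (X - 1) ^ (m * q ^ a) - (X ^ (m * q ^ a) - 1)) :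
    (X ^ r - 1 : (ZMod q)[X]) ∣ (X - 1) ^ m - (X ^ m - 1) := by
  rw [dvd_iff]
  set x := AdjoinRoot.root (X ^ r - 1 : (ZMod q)[X]) with hx
  have hxr : x ^ r = 1 := root_pow
  have h0 : ((q : ℕ) : AdjoinRoot (X ^ r - 1 : (ZMod q)[X])) = 0 := cast_zero (N := q) _
  obtain ⟨k, hk⟩ := exists_inv hr hxr hc
  have hy : (x ^ k) ^ r = 1 := by rw [← pow_mul, mul_comm, pow_mul, hxr, one_pow]
  have h1 := eval_cong h (x ^ k) hy
  have h2 := iter (r := r) (q := q) (A := AdjoinRoot (X ^ r - 1 : (ZMod q)[X])) (fun y _ => by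
    obtain ⟨s, hs⟩ := sub_dvd hq y
    rw [h0, zero_mul, sub_eq_zero] at hs
    exact hs.symm) a (x ^ k) hy
  have e1 : (x ^ k) ^ (q ^ a) = x := by rw [← pow_mul, hk]
  rw [e1] at h2
  rw [← h2, ← pow_mul, mul_comm (q ^ a) m, h1, mul_comm m, pow_mul, e1]

/-- the converse -/
theorem local_conv {q a m r : ℕ}
    (hm : (X ^ r - 1 : (ZMod q)[X]) ∣ (X - 1) ^ m - (X ^ m - 1))
    (h : (X ^ r - 1 : (ZMod (q ^ a))[X]) ∣ (X - 1) ^ q - (X ^ q - 1)) :
    (X ^ r - 1 : (ZMod (q ^ a))[X]) ∣ (X - 1) ^ (m * q ^ a) - (X ^ (m * q ^ a) - 1) := by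
  rw [dvd_iff]
  set x := AdjoinRoot.root (X ^ r - 1 : (ZMod (q ^ a))[X]) with hx
  have hxr : x ^ r = 1 := root_pow
  have h0 : ((q ^ a : ℕ) : AdjoinRoot (X ^ r - 1 : (ZMod (q ^ a))[X])) = 0 :=
    cast_zero (N := q ^ a) _
  have h1 := iter (r := r) (q := q) (A := AdjoinRoot (X ^ r - 1 : (ZMod (q ^ a))[X]))
    (fun y hy => eval_cong h y hy) a (x ^ m) (by rw [← pow_mul, mul_comm, pow_mul, hxr, one_pow])
  have h2 : ((q : ℕ) : AdjoinRoot (X ^ r - 1 : (ZMod (q ^ a))[X])) ∣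
      (x - 1) ^ m - (x ^ m - 1) := by
    have h3 : (X ^ r - 1 : (ZMod q)[X]) ∣
        ((X - 1) ^ m - (X ^ m - 1) : ℤ[X]).map (Int.castRingHom (ZMod q)) := by
      simpa using hm
    obtain ⟨V, U, hVU⟩ := lift_dvd h3
    have h4 := congrArg (fun P : ℤ[X] => aeval x P) hVU
    simp only [map_sub, map_pow, aeval_X, map_one, map_mul, map_add, hxr, sub_self,
      zero_mul, zero_add, aeval_C] at h4
    refine ⟨aeval x U, ?_⟩
    rw [h4]
    simp
  have h3 := pow_eq_of_dvd h0 h2 1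
  rw [mul_one, h1, ← pow_mul, ← pow_mul] at h3
  exact h3

/-- Chinese remainders -/
theorem crt {n r : ℕ} (hn : n ≠ 0) (hr : r ≠ 0) (F : ℤ[X])
    (h : ∀ q m a : ℕ, q.Prime → 0 < a → ¬ q ∣ m → n = m * q ^ a →
      (X ^ r - 1 : (ZMod (q ^ a))[X]) ∣ F.map (Int.castRingHom (ZMod (q ^ a)))) :
    (X ^ r - 1 : (ZMod n)[X]) ∣ F.map (Int.castRingHom (ZMod n)) := by
  have key : ∀ N : ℕ, (X ^ r - 1 : (ZMod N)[X]) ∣ F.map (Int.castRingHom (ZMod N)) ↔
      C (N : ℤ) ∣ F %ₘ (X ^ r - 1) := by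
    intro N
    rw [← map_eq_zero_iff', map_modByMonic _ (monic_W hr), map_W,
      modByMonic_eq_zero_iff_dvd (monic_W hr)]
  rw [key, C_dvd_iff_dvd_coeff]
  intro i
  rw [Int.natCast_dvd]
  rw [Nat.dvd_iff_prime_pow_dvd_dvd]
  intro p k hp hk
  rcases Nat.eq_zero_or_pos k with h0 | h0
  · rw [h0, pow_zero]
    exact one_dvd _
  obtain ⟨a, m, hm, hnm⟩ := Nat.exists_eq_pow_mul_and_not_dvd hn p hp.ne_one
  have hka : k ≤ a := by
    rw [hnm] at hk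
    have h1 : p ^ k ∣ p ^ a := Nat.Coprime.dvd_of_dvd_mul_right
      ((Nat.Prime.coprime_iff_not_dvd hp).2 hm |>.pow_left k) hk
    exact (Nat.pow_dvd_pow_iff_le_right hp.one_lt).1 h1
  have h1 := h p m a hp (by omega) hm (by rw [hnm, mul_comm])
  rw [key, C_dvd_iff_dvd_coeff] at h1
  have h2 := h1 i
  rw [Int.natCast_dvd] at h2
  exact (pow_dvd_pow p hka).trans h2

/-- the local criterion -/
theorem criterion {n r : ℕ} (hn : 0 < n) (hr : 0 < r) (hc : Nat.Coprime n r) :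
    (X ^ r - 1 : (ZMod n)[X]) ∣ (X - 1) ^ n - (X ^ n - 1) ↔
      ∀ q m a : ℕ, q.Prime → 0 < a → ¬ q ∣ m → n = m * q ^ a →
        (X ^ r - 1 : (ZMod q)[X]) ∣ (X - 1) ^ m - (X ^ m - 1) ∧
        (X ^ r - 1 : (ZMod (q ^ a))[X]) ∣ (X - 1) ^ q - (X ^ q - 1) := by
  constructor
  · intro h q m a hq ha hm hnm
    constructor
    · have h1 := red (q := q) (by rw [hnm]; exact (dvd_pow_self q ha.ne').mul_left m) h
      have h2 : (X ^ r - 1 : (ZMod q)[X]) ∣ (X - 1) ^ n - (X ^ n - 1) := h1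
      rw [hnm] at h2
      exact local_m hq hr (Nat.Coprime.coprime_dvd_left (by rw [hnm]; exact dvd_mul_left _ _) hc) h2
    · have h1 := red (q := q ^ a) (by rw [hnm]; exact dvd_mul_left _ _) h
      have h2 : (X ^ r - 1 : (ZMod (q ^ a))[X]) ∣ (X - 1) ^ n - (X ^ n - 1) := h1
      rw [hnm] at h2 hc
      exact local_q hq hr hc h2
  · intro h
    have h1 := crt (n := n) (r := r) hn.ne' hr.ne' ((X - 1) ^ n - (X ^ n - 1)) (by
      intro q m a hq ha hm hnm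
      obtain ⟨h2, h3⟩ := h q m a hq ha hm hnm
      have h4 := local_conv h2 h3
      rw [← hnm] at h4
      simpa using h4)
    simpa using h1

end Pool.Agent.H881.AK
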