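import Pool.Agent.H881.AK.Basic

/-!
# The congruence `(X - 1)^n ≡ X^n - 1 (mod n, X^r - 1)`: `n` is a pseudoprime to the prime divisors
of `r` as bases
-/

set_option autoImplicit false

open Polynomial

namespace Pool.Agent.H881.AK

theorem cong_of_dvd {n r r' : ℕ} (hd : r' ∣ r) (h : Cong n r) : Cong n r' := by
  obtain ⟨k, rfl⟩ := hd
  exact (dvd_pow_mul r' k).trans h

/-- a polynomial which is zero at a primitive root of unity is divisible by `Φ_ℓ` -/
theorem cyc_dvd {l : ℕ} (hl : 0 < l) {ζ : ℂ} (hζ : IsPrimitiveRoot ζ l) {P : ℤ[X]}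
    (h : aeval ζ P = 0) : cyclotomic l ℤ ∣ P := by
  rw [cyclotomic_eq_minpoly hζ hl]
  exact minpoly.isIntegrallyClosed_dvd (hζ.isIntegral hl) h

theorem root_zero {n l : ℕ} (hl : 0 < l) {ζ : ℂ} (hζ : IsPrimitiveRoot ζ l) {P : ℤ[X]}
    (h : aeval ζ P = 0) : aeval (AdjoinRoot.root (cyclotomic l (ZMod n))) P = 0 := by
  obtain ⟨Q, hQ⟩ := cyc_dvd hl hζ h
  rw [hQ, map_mul]
  have h1 : aeval (AdjoinRoot.root (cyclotomic l (ZMod n))) (cyclotomic l ℤ) = 0 := by
    have h4 := aeval_map_algebraMap (ZMod n) (AdjoinRoot.root (cyclotomic l (ZMod n)))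
      (cyclotomic l ℤ)
    rw [← h4, map_cyclotomic, AdjoinRoot.aeval_eq, AdjoinRoot.mk_self]
  rw [h1, zero_mul]

theorem prod_int {l : ℕ} (hl : Odd l) {ζ : ℂ} (hζ : IsPrimitiveRoot ζ l) :
    ∏ k ∈ Finset.range (l - 1), (ζ ^ (k + 1) - 1) = l := by
  obtain ⟨b, hb⟩ := hl
  have h0 : l = (l - 1) + 1 := by omega
  have h1 : IsPrimitiveRoot ζ ((l - 1) + 1) := by rwa [← h0]
  have h2 := h1.prod_one_sub_pow_eq_order
  have h3 : ∏ k ∈ Finset.range (l - 1), (ζ ^ (k + 1) - 1) =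
      ∏ k ∈ Finset.range (l - 1), (-1 : ℂ) * (1 - ζ ^ (k + 1)) :=
    Finset.prod_congr rfl fun k _ => by ring
  rw [h3, Finset.prod_mul_distrib, h2, Finset.prod_const, Finset.card_range]
  have h4 : Even (l - 1) := ⟨b, by omega⟩
  rw [h4.neg_one_pow, one_mul]
  have h5 : ((l : ℕ) : ℂ) = ((l - 1 : ℕ) : ℂ) + 1 := by
    conv_lhs => rw [h0]
    push_cast
    rfl
  exact h5.symm

theorem pseudo_odd {N n l : ℕ} (hl : l.Prime) (hlo : Odd l) (hn : 1 < N) (hc : Nat.Coprime n l)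
    (h : (X ^ l - 1 : (ZMod N)[X]) ∣ (X - 1) ^ n - (X ^ n - 1)) : (l : ZMod N) ^ n = l := by
  have : Fact (1 < N) := ⟨hn⟩
  obtain ⟨ζ, hζ⟩ : ∃ ζ : ℂ, IsPrimitiveRoot ζ l :=
    ⟨_, Complex.isPrimitiveRoot_exp l hl.ne_zero⟩
  set S := AdjoinRoot (cyclotomic l (ZMod N)) with hS
  set x : S := AdjoinRoot.root (cyclotomic l (ZMod N)) with hx
  have e1 : ∏ k ∈ Finset.range (l - 1), (x ^ (k + 1) - 1) = ((l : ℕ) : S) := by
    have h1 := root_zero (n := N) hl.pos hζ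
      (P := ∏ k ∈ Finset.range (l - 1), (X ^ (k + 1) - 1) - C (l : ℤ)) (by
        simp only [map_sub, map_prod, map_pow, aeval_X, map_one, aeval_C]
        rw [prod_int hlo hζ]
        simp)
    simp only [map_sub, map_prod, map_pow, aeval_X, map_one, aeval_C] at h1
    rw [sub_eq_zero] at h1
    rw [hx, h1]
    simp
  have e2 : ∏ k ∈ Finset.range (l - 1), ((x ^ n) ^ (k + 1) - 1) = ((l : ℕ) : S) := by
    have h1 := root_zero (n := N) hl.pos hζ
      (P := ∏ k ∈ Finset.range (l - 1), ((X ^ n) ^ (k + 1) - 1) - C (l : ℤ)) (by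
        simp only [map_sub, map_prod, map_pow, aeval_X, map_one, aeval_C]
        rw [prod_int hlo (hζ.pow_of_coprime n hc)]
        simp)
    simp only [map_sub, map_prod, map_pow, aeval_X, map_one, aeval_C] at h1
    rw [sub_eq_zero] at h1
    rw [hx, h1]
    simp
  have hxl : x ^ l = 1 := by
    have h1 := root_zero (n := N) hl.pos hζ (P := X ^ l - 1) (by
      simp only [map_sub, map_pow, aeval_X, map_one, hζ.pow_eq_one, sub_self])
    simp only [map_sub, map_pow, aeval_X, map_one] at h1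
    exact sub_eq_zero.1 h1
  have e3 : ∀ k : ℕ, (x ^ (k + 1) - 1) ^ n = (x ^ n) ^ (k + 1) - 1 := by
    intro k
    obtain ⟨E, hE⟩ := h
    have h1 := congrArg (fun P : (ZMod N)[X] => aeval (x ^ (k + 1)) P) hE
    simp only [map_sub, map_pow, aeval_X, map_one, map_mul] at h1
    have h2 : (x ^ (k + 1)) ^ l - 1 = 0 := by
      rw [← pow_mul, mul_comm, pow_mul, hxl, one_pow, sub_self]
    rw [h2, zero_mul, sub_eq_zero] at h1
    rw [h1, ← pow_mul, ← pow_mul, mul_comm]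
  have e4 : ((l : ℕ) : S) ^ n = ((l : ℕ) : S) := by
    conv_lhs => rw [← e1]
    rw [← Finset.prod_pow, Finset.prod_congr rfl fun k _ => e3 k, e2]
  by_contra hne
  have hm : (cyclotomic l (ZMod N)).Monic := cyclotomic.monic l (ZMod N)
  have h1 : AdjoinRoot.mk (cyclotomic l (ZMod N)) (C ((l : ZMod N) ^ n - l)) ≠ 0 := by
    refine AdjoinRoot.mk_ne_zero_of_natDegree_lt hm ?_ ?_
    · rw [Ne, C_eq_zero, sub_eq_zero]
      exact hne
    · rw [natDegree_C, natDegree_cyclotomic]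
      exact Nat.totient_pos.2 hl.pos
  apply h1
  rw [AdjoinRoot.mk_C, map_sub, map_pow, map_natCast, e4, sub_self]

/-- `n` is a pseudoprime -/
theorem pseudo {N n r l : ℕ} (hl : l.Prime) (hlr : l ∣ r) (hn : 1 < N) (hodd : Odd n)
    (hc : Nat.Coprime n r) (h0 : (X ^ r - 1 : (ZMod N)[X]) ∣ (X - 1) ^ n - (X ^ n - 1)) :
    (l : ZMod N) ^ n = l := by
  have h1 : (X ^ l - 1 : (ZMod N)[X]) ∣ (X - 1) ^ n - (X ^ n - 1) := by
    refine dvd_trans ?_ h0
    obtain ⟨k, rfl⟩ := hlr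
    exact dvd_pow_mul l k
  rcases hl.eq_two_or_odd' with h2 | h2
  · rw [h2] at h1 ⊢
    obtain ⟨E, hE⟩ := h1
    have h3 := congrArg (fun P : (ZMod N)[X] => P.eval (-1)) hE
    simp only [eval_sub, eval_pow, eval_X, eval_one, eval_mul, hodd.neg_one_pow] at h3
    have h4 : ((-1 : ZMod N) ^ 2 - 1) = 0 := by ring
    rw [h4, zero_mul] at h3
    have h5 : (-1 - 1 : ZMod N) ^ n = -(2 : ZMod N) ^ n := by
      rw [show (-1 - 1 : ZMod N) = -2 by ring, hodd.neg_pow]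
    rw [h5] at h3
    push_cast
    linear_combination -h3
  · exact pseudo_odd hl h2 hn (Nat.Coprime.coprime_dvd_right hlr hc) h1

end Pool.Agent.H881.AK
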