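import Pool.Agent.H881.AK.Basic

/-!
# The congruence `(X - 1)^n ≡ X^n - 1 (mod n, X^r - 1)`: square factors
-/

set_option autoImplicit false

open Polynomial

namespace Pool.Agent.H881.AK

theorem map_eq_zero_iff' {n : ℕ} {F : ℤ[X]} :
    F.map (Int.castRingHom (ZMod n)) = 0 ↔ C (n : ℤ) ∣ F := by
  rw [C_dvd_iff_dvd_coeff]
  constructor
  · intro h i
    have h1 := congrArg (fun P : (ZMod n)[X] => P.coeff i) h
    simp only [coeff_map, coeff_zero, eq_intCast] at h1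
    exact (ZMod.intCast_zmod_eq_zero_iff_dvd _ _).1 h1
  · intro h
    ext i
    rw [coeff_map, coeff_zero, eq_intCast]
    exact (ZMod.intCast_zmod_eq_zero_iff_dvd _ _).2 (h i)

theorem map_W {n r : ℕ} : (X ^ r - 1 : ℤ[X]).map (Int.castRingHom (ZMod n)) = X ^ r - 1 := by
  simp

/-- lifting a divisibility -/
theorem lift_dvd {n r : ℕ} {F : ℤ[X]}
    (h : (X ^ r - 1 : (ZMod n)[X]) ∣ F.map (Int.castRingHom (ZMod n))) :
    ∃ V U : ℤ[X], F = (X ^ r - 1) * V + C (n : ℤ) * U := by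
  obtain ⟨E, hE⟩ := h
  obtain ⟨V, hV⟩ := map_surjective (Int.castRingHom (ZMod n)) (ZMod.ringHom_surjective _) E
  have h1 : (F - (X ^ r - 1) * V).map (Int.castRingHom (ZMod n)) = 0 := by
    rw [Polynomial.map_sub, Polynomial.map_mul, map_W, hV, hE, sub_self]
  obtain ⟨U, hU⟩ := map_eq_zero_iff'.1 h1
  exact ⟨V, U, by rw [← hU]; ring⟩

theorem map_FF {n m : ℕ} : (FF ℤ m).map (Int.castRingHom (ZMod n)) = FF (ZMod n) m := by
  simp [FF]

/-- square factors are large -/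
theorem square {n r q : ℕ} (hq : q.Prime) (hqn : q ^ 2 ∣ n) (hodd : Odd n)
    (hr : 2 ≤ r) (hc : Nat.Coprime n r) (h : Cong n r) : r + 2 ≤ q := by
  have : Fact q.Prime := ⟨hq⟩
  have hqn1 : q ∣ n := (dvd_pow_self q two_ne_zero).trans hqn
  have hqr : ¬ q ∣ r := fun h1 => hq.one_lt.ne' (Nat.eq_one_of_dvd_coprimes hc hqn1 h1)
  have hqo : Odd q := hodd.of_dvd_nat hqn1
  obtain ⟨M, hM⟩ := hqn1
  have hn : n = M * q ^ 1 := by rw [hM, pow_one, mul_comm]
  set W : ℤ[X] := X ^ r - 1 with hW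
  -- step 1
  have h1 := red (q := q) ⟨M, hM⟩ h
  rw [hn, FF_pow] at h1
  have h2 := dvd_of_pow hqr h1
  rw [← map_FF] at h2
  obtain ⟨V, U, hVU⟩ := lift_dvd h2
  -- step 2
  have h3 : ((X - 1) ^ M : ℤ[X]) = (X ^ M - 1 + C (q : ℤ) * U) + W * V := by
    have : ((X - 1) ^ M : ℤ[X]) = FF ℤ M + (X ^ M - 1) := by unfold FF; ring
    rw [this, hVU]
    ring
  have h4 : W ∣ ((X - 1) ^ M) ^ q - (X ^ M - 1 + C (q : ℤ) * U) ^ q := by
    have h5 := sub_dvd_pow_sub_pow ((X - 1) ^ M : ℤ[X]) (X ^ M - 1 + C (q : ℤ) * U) q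
    refine dvd_trans ?_ h5
    rw [h3]
    exact ⟨V, by ring⟩
  have h5 : (C (q : ℤ)) ^ 2 ∣ (X ^ M - 1 + C (q : ℤ) * U) ^ q - (X ^ M - 1) ^ q := by
    have h6 : ((q : ℕ) : ℤ[X]) ∣ (X ^ M - 1 + C (q : ℤ) * U) - (X ^ M - 1) := by
      refine ⟨U, ?_⟩
      have : (C (q : ℤ) : ℤ[X]) = ((q : ℕ) : ℤ[X]) := by simp
      rw [this]
      ring
    have h7 := dvd_sub_pow_of_dvd_sub h6 1
    rw [pow_one] at h7
    have : (C (q : ℤ) : ℤ[X]) = ((q : ℕ) : ℤ[X]) := by simp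
    rw [this]
    exact h7
  -- step 3
  have h6 : ∃ A B : ℤ[X], FF ℤ n = W * A + (C (q : ℤ)) ^ 2 * B := by
    have h7 : (X ^ r - 1 : (ZMod n)[X]) ∣ (FF ℤ n).map (Int.castRingHom (ZMod n)) := by
      rw [map_FF]
      exact h
    obtain ⟨A, B, hAB⟩ := lift_dvd h7
    obtain ⟨t, ht⟩ := hqn
    refine ⟨A, C (t : ℤ) * B, ?_⟩
    rw [hAB, ← C_pow, ← mul_assoc, ← C_mul]
    congr 3
    rw [ht]
    push_cast
    ring
  obtain ⟨A, B, hAB⟩ := h6
  obtain ⟨A1, hA1⟩ := h4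
  obtain ⟨B1, hB1⟩ := h5
  -- step 4
  have h7 : C (q : ℤ) ∣ FF ℤ q := by
    rw [← map_eq_zero_iff', map_FF]
    unfold FF
    rw [sub_pow_char, one_pow, sub_self]
  obtain ⟨H, hH⟩ := h7
  have h8 : (C (q : ℤ)) * H.comp (X ^ M) = (X ^ M - 1) ^ q - (X ^ n - 1) := by
    have h9 := congrArg (fun P : ℤ[X] => P.comp (X ^ M)) hH
    simp only [FF, mul_comp, sub_comp, pow_comp, X_comp, one_comp, C_comp] at h9
    rw [← h9, ← pow_mul, hn, pow_one]
  have h9 : (C (q : ℤ)) * H.comp (X ^ M) =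
      W * (A - A1) + (C (q : ℤ)) ^ 2 * (B - B1) := by
    have e1 : ((X - 1) ^ M : ℤ[X]) ^ q = (X - 1) ^ n := by rw [← pow_mul, hn, pow_one]
    rw [e1] at hA1
    have e2 : ((X - 1) ^ n : ℤ[X]) = FF ℤ n + (X ^ n - 1) := by unfold FF; ring
    rw [h8]
    have e3 : ((X ^ M - 1) ^ q - (X ^ n - 1) : ℤ[X]) = FF ℤ n -
        ((X - 1) ^ n - (X ^ M - 1 + C (q : ℤ) * U) ^ q) -
        ((X ^ M - 1 + C (q : ℤ) * U) ^ q - (X ^ M - 1) ^ q) := by
      rw [e2]
      ring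
    rw [e3, hA1, hB1, hAB]
    ring
  -- step 5
  have hCq : (C (q : ℤ) : ℤ[X]) ≠ 0 := by
    rw [Ne, C_eq_zero]
    exact_mod_cast hq.ne_zero
  have h10 : C (q : ℤ) ∣ A - A1 := by
    rw [← map_eq_zero_iff']
    have h11 := congrArg (fun P : ℤ[X] => P.map (Int.castRingHom (ZMod q))) h9
    have h12 : (C (q : ℤ) : ℤ[X]).map (Int.castRingHom (ZMod q)) = 0 := by
      rw [map_C]
      simp
    simp only [Polynomial.map_mul, Polynomial.map_add, Polynomial.map_pow, h12] at h11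
    rw [zero_mul, zero_pow two_ne_zero, zero_mul, add_zero, hW, map_W] at h11
    rcases mul_eq_zero.1 h11.symm with h13 | h13
    · exact absurd h13 (monic_W (by omega)).ne_zero
    · exact h13
  obtain ⟨A3, hA3⟩ := h10
  have h11 : H.comp (X ^ M) = W * A3 + C (q : ℤ) * (B - B1) := by
    apply mul_left_cancel₀ hCq
    rw [h9, hA3]
    ring
  set Hq : (ZMod q)[X] := H.map (Int.castRingHom (ZMod q)) with hHq
  have h12 : (X ^ r - 1 : (ZMod q)[X]) ∣ Hq.comp (X ^ M) := by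
    have h13 := congrArg (fun P : ℤ[X] => P.map (Int.castRingHom (ZMod q))) h11
    have h14 : (C (q : ℤ) : ℤ[X]).map (Int.castRingHom (ZMod q)) = 0 := by
      rw [map_C]
      simp
    simp only [Polynomial.map_mul, Polynomial.map_add, h14, zero_mul, add_zero, Polynomial.map_comp,
      Polynomial.map_pow, Polynomial.map_X] at h13
    rw [hHq, h13, hW, map_W]
    exact dvd_mul_right _ _
  -- step 6
  have hMr : Nat.Coprime M r := Nat.Coprime.coprime_dvd_left ⟨q, by rw [hM, mul_comm]⟩ hc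
  obtain ⟨M', -, hM'⟩ := Nat.exists_mul_mod_eq_one_of_coprime hMr (by omega)
  have h13 : (X ^ r - 1 : (ZMod q)[X]) ∣ Hq := by
    have a1 : (X ^ r - 1 : (ZMod q)[X]) ∣ (Hq.comp (X ^ M)).comp (X ^ M') := by
      obtain ⟨E, hE⟩ := h12
      rw [hE, mul_comp]
      refine Dvd.dvd.mul_right ?_ _
      simp only [sub_comp, pow_comp, X_comp, one_comp]
      rw [← pow_mul, mul_comm M' r]
      exact dvd_pow_mul r M'
    rw [comp_assoc] at a1
    have a2 : (X ^ M : (ZMod q)[X]).comp (X ^ M') = X ^ (M * M') := by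
      rw [pow_comp, X_comp, ← pow_mul, mul_comm]
    rw [a2] at a1
    have a3 : (X ^ (M * M') - X : (ZMod q)[X]) ∣ Hq.comp (X ^ (M * M')) - Hq.comp X := by
      have := sub_dvd_eval_sub (X ^ (M * M')) (X : (ZMod q)[X]) (Hq.map C)
      rw [eval_map, eval_map] at this
      exact this
    have a4 : (X ^ r - 1 : (ZMod q)[X]) ∣ X ^ (M * M') - X := by
      have := dvd_sub_mod (R := ZMod q) r (M * M')
      rw [hM', pow_one] at this
      exact this
    have a5 := a1.sub (a4.trans a3)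
    rw [comp_X] at a5
    simpa using a5
  -- step 7
  have hq2 : 1 < q := hq.one_lt
  have hc1 : H.coeff 1 = 1 := by
    have a1 := FF_coeff_one (R := ℤ) hqo hq2
    rw [hH, coeff_C_mul] at a1
    have : (q : ℤ) ≠ 0 := by exact_mod_cast hq.ne_zero
    exact mul_left_cancel₀ this (by rw [a1, mul_one])
  have hc0 : H.coeff 0 = 0 := by
    have a1 := FF_coeff_zero (R := ℤ) hqo
    rw [hH, coeff_C_mul] at a1
    have : (q : ℤ) ≠ 0 := by exact_mod_cast hq.ne_zero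
    rcases mul_eq_zero.1 a1 with h | h
    · exact absurd h this
    · exact h
  have hd : H.natDegree < q := by
    have a1 := FF_natDegree (R := ℤ) hq2
    rw [hH, natDegree_C_mul (by exact_mod_cast hq.ne_zero)] at a1
    exact a1
  refine deg_bound (F := Hq) (by omega) ?_ ?_ h13 ?_
  · intro h0
    have a1 := congrArg (fun P : (ZMod q)[X] => P.coeff 1) h0
    simp only [hHq, coeff_map, hc1, coeff_zero, map_one] at a1
    exact one_ne_zero a1
  · exact lt_of_le_of_lt natDegree_map_le hd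
  · rw [hHq, coeff_map, hc0, map_zero]

end Pool.Agent.H881.AK
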