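import Pool.Agent.H881.AK.Crit

/-!
# The congruence `(X - 1)^n ≡ X^n - 1 (mod n, X^r - 1)`: sharper lower bounds for the cofactors
-/

set_option autoImplicit false

open Polynomial

namespace Pool.Agent.H881.AK

theorem two_choose {R : Type*} [CommRing R] (k : ℕ) :
    2 * ((k.choose 2 : ℕ) : R) = (k : R) * (k - 1) := by
  induction k with
  | zero => simp
  | succ k ih =>
    rw [Nat.choose_succ_succ, Nat.choose_one_right]
    push_cast
    linear_combination ih

theorem X_mul_deriv {R : Type*} [CommRing R] {k : ℕ} (hk : 0 < k) (P : R[X]) :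
    P * derivative (P ^ k) = C (k : R) * P ^ k * derivative P := by
  rw [derivative_pow]
  obtain ⟨j, rfl⟩ : ∃ j, k = j + 1 := ⟨k - 1, by omega⟩
  rw [Nat.add_sub_cancel, pow_succ]
  ring

/-- the fundamental identity for the cofactor of `X ^ r - 1` -/
theorem key_identity {q : ℕ} [Fact q.Prime] {r s : ℕ} (hr : 0 < r) (hs : 0 < s) (hsr : s < r)
    {Q G : (ZMod q)[X]} {c : ZMod q}
    (hd : Q.natDegree < s)
    (h : (X - 1) * (X * derivative ((X ^ r - 1) * Q)) =
      (X ^ r - 1) * G + C c * (X ^ s - X)) :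
    C (r : ZMod q) * ((X - 1) * Q) = C c * (X ^ s - X) := by
  have e1 : (X : (ZMod q)[X]) * derivative (X ^ r - 1 : (ZMod q)[X]) =
      C (r : ZMod q) * (X ^ r - 1 + 1) := by
    rw [derivative_sub, derivative_one, sub_zero, X_mul_deriv hr, derivative_X]
    ring
  have e2 : (X - 1) * (X * derivative ((X ^ r - 1) * Q)) =
      (X ^ r - 1) * ((X - 1) * (C (r : ZMod q) * Q + X * derivative Q)) +
        C (r : ZMod q) * ((X - 1) * Q) := by
    rw [derivative_mul]
    linear_combination ((X - 1) * Q) * e1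
  have e3 : (X ^ r - 1 : (ZMod q)[X]) ∣ C (r : ZMod q) * ((X - 1) * Q) - C c * (X ^ s - X) := by
    refine ⟨G - (X - 1) * (C (r : ZMod q) * Q + X * derivative Q), ?_⟩
    linear_combination e2.symm.trans h
  have hX1 : (X - 1 : (ZMod q)[X]).natDegree ≤ 1 := by
    have := natDegree_X_sub_C (1 : ZMod q)
    rw [C_1] at this
    exact this.le
  have e4 : (C (r : ZMod q) * ((X - 1) * Q) - C c * (X ^ s - X)).natDegree < r := by
    refine lt_of_le_of_lt (natDegree_sub_le_of_le (n := s) ?_ ?_ |>.trans (max_self s).le) hsr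
    · refine (natDegree_C_mul_le _ _).trans (natDegree_mul_le.trans ?_)
      omega
    · refine (natDegree_C_mul_le _ _).trans ?_
      refine (natDegree_sub_le_of_le (n := s) (natDegree_X_pow_le s) ?_).trans (max_self s).le
      exact natDegree_X_le.trans hs
  have hW := monic_W (R := ZMod q) hr.ne'
  by_contra hne
  have h5 : C (r : ZMod q) * ((X - 1) * Q) - C c * (X ^ s - X) ≠ 0 := fun h6 =>
    hne (sub_eq_zero.1 h6)
  have h6 := natDegree_le_of_dvd e3 h5
  rw [natDegree_W] at h6
  omega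

/-- if `X ^ u - 1` divides a power of `X - 1` then `u` is a power of the characteristic -/
theorem pow_of_dvd {q : ℕ} [hq : Fact q.Prime] {u N : ℕ} (hu : 0 < u)
    (h : (X ^ u - 1 : (ZMod q)[X]) ∣ (X - 1) ^ N) : ∃ k, u = q ^ k := by
  obtain ⟨k, v, hv, huv⟩ := Nat.exists_eq_pow_mul_and_not_dvd hu.ne' q hq.out.ne_one
  have h1 : (X ^ v - 1 : (ZMod q)[X]) ∣ (X - 1) ^ N := by
    refine dvd_trans ?_ h
    rw [huv, mul_comm]
    exact dvd_pow_mul v _
  have h2 : (X ^ v - 1 : (ZMod q)[X]) ∣ (X - 1) := by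
    rcases Nat.eq_zero_or_pos v with h0 | h0
    · rw [h0] at hv
      exact absurd (dvd_zero q) hv
    · exact dvd_of_pow hv h1
  have h3 := natDegree_le_of_dvd h2 (by
    have := X_sub_C_ne_zero (1 : ZMod q)
    rwa [C_1] at this)
  rw [natDegree_W] at h3
  have h4 : (X - 1 : (ZMod q)[X]).natDegree = 1 := by
    have := natDegree_X_sub_C (1 : ZMod q)
    rwa [C_1] at this
  have h5 : v ≠ 0 := fun h0 => hv (h0 ▸ dvd_zero q)
  exact ⟨k, by rw [huv, show v = 1 by omega, mul_one]⟩

theorem ne_zero_of_not_dvd {q k : ℕ} (h : ¬ q ∣ k) : (k : ZMod q) ≠ 0 := fun h1 =>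
  h ((ZMod.natCast_eq_zero_iff k q).1 h1)

/-- the cofactor is larger than `2 r`, or `r + 1` is a power of `q` -/
theorem cofactor2 {q r m : ℕ} [hq : Fact q.Prime] (hr : 2 ≤ r) (hqr : ¬ q ∣ r)
    (hmo : Odd m) (hm1 : 1 < m) (hqm : ¬ q ∣ m)
    (h : (X ^ r - 1 : (ZMod q)[X]) ∣ FF (ZMod q) m) :
    2 * r < m ∨ ∃ k i, 0 < i ∧ i < k ∧ r + 1 = q ^ k ∧ m = r + q ^ i := by
  have hm0 := ne_zero_of_not_dvd hqm
  have hr0 := ne_zero_of_not_dvd hqr
  have hne : FF (ZMod q) m ≠ 0 := by
    intro h0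
    have h3 := FF_coeff_one (R := ZMod q) hmo hm1
    rw [h0, coeff_zero] at h3
    exact hm0 h3.symm
  have h1 := deg_bound (by omega) hne (FF_natDegree hm1) h (FF_coeff_zero hmo)
  rcases Nat.lt_or_ge (2 * r) m with h2 | h2
  · exact Or.inl h2
  right
  obtain ⟨s, hs⟩ : ∃ s, m = r + s := ⟨m - r, by omega⟩
  have hs2 : 2 ≤ s := by omega
  have hsr : s < r := by
    rcases Nat.lt_or_ge s r with h3 | h3
    · exact h3
    · exfalso
      have : m = 2 * r := by omega
      rw [this] at hmo
      exact (Nat.not_odd_iff_even.2 (even_two_mul r)) hmo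
  have hW := monic_W (R := ZMod q) (by omega : r ≠ 0)
  obtain ⟨Q, hQ⟩ := h
  have hd : Q.natDegree < s := by
    have h3 := FF_natDegree (R := ZMod q) hm1
    have hQ0 : Q ≠ 0 := by
      rintro rfl
      rw [mul_zero] at hQ
      exact hne hQ
    rw [hQ, hW.natDegree_mul' hQ0, natDegree_W] at h3
    omega
  -- the fundamental identity
  have e1 : (X - 1 : (ZMod q)[X]) * derivative ((X - 1) ^ m) = C (m : ZMod q) * (X - 1) ^ m := by
    rw [X_mul_deriv (by omega)]
    simp
  have e2 : (X : (ZMod q)[X]) * derivative (X ^ m) = C (m : ZMod q) * X ^ m := by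
    rw [X_mul_deriv (by omega)]
    simp
  have e3 : ((X - 1 : (ZMod q)[X]) ^ m) = (X ^ r - 1) * Q + (X ^ m - 1) := by
    rw [← hQ]
    unfold FF
    ring
  have e4 : (X ^ m : (ZMod q)[X]) = X ^ r * X ^ s := by rw [hs, pow_add]
  have e5 : (X - 1) * (X * derivative ((X ^ r - 1) * Q)) =
      (X ^ r - 1) * (C (m : ZMod q) * (X * Q + X ^ s)) + C (m : ZMod q) * (X ^ s - X) := by
    rw [← hQ]
    unfold FF
    rw [derivative_sub, derivative_sub, derivative_one]
    linear_combination X * e1 - (X - 1) * e2 + (C (m : ZMod q) * X) * e3 + C (m : ZMod q) * e4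
  have k1 := key_identity (by omega) (by omega) hsr hd e5
  have k2 : C (r : ZMod q) * ((X - 1) * ((X - 1) ^ m - (X ^ m - 1))) =
      C (m : ZMod q) * ((X ^ r - 1) * (X ^ s - X)) := by
    linear_combination (X ^ r - 1) * k1 + (C (r : ZMod q) * (X - 1)) * e3
  -- the prime `q` divides `s`
  have k3 : (m : ZMod q) * r * s = 0 := by
    have g1 := mul_geom_sum (X : (ZMod q)[X]) m
    have g2 := mul_geom_sum (X : (ZMod q)[X]) r
    have g3 := mul_geom_sum (X : (ZMod q)[X]) s
    have g4 : ((X - 1 : (ZMod q)[X]) ^ m) = (X - 1) * (X - 1) ^ (m - 1) := by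
      rw [← pow_succ']
      congr 1
      omega
    have hX1 : (X - 1 : (ZMod q)[X]) ^ 2 ≠ 0 := by
      have := X_sub_C_ne_zero (1 : ZMod q)
      rw [C_1] at this
      exact pow_ne_zero 2 this
    have g5 : C (r : ZMod q) * ((X - 1) ^ (m - 1) - ∑ i ∈ Finset.range m, X ^ i) =
        C (m : ZMod q) * ((∑ i ∈ Finset.range r, X ^ i) * ((∑ i ∈ Finset.range s, X ^ i) - 1)) := by
      apply mul_left_cancel₀ hX1
      rw [← g1, ← g2, g4] at k2
      have g6 : (X ^ s - X : (ZMod q)[X]) =
          (X - 1) * ((∑ i ∈ Finset.range s, X ^ i) - 1) := by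
        rw [mul_sub, g3]
        ring
      rw [g6] at k2
      linear_combination k2
    have g6 := congrArg (fun P : (ZMod q)[X] => P.eval 1) g5
    simp only [eval_mul, eval_sub, eval_C, eval_pow, eval_X, eval_one, eval_finsetSum, one_pow,
      sub_self, zero_pow (show m - 1 ≠ 0 by omega), Finset.sum_const, Finset.card_range,
      nsmul_eq_mul, mul_one] at g6
    linear_combination -g6
  have k4 : (s : ZMod q) = 0 := by
    rcases mul_eq_zero.1 k3 with h3 | h3
    · rcases mul_eq_zero.1 h3 with h4 | h4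
      · exact absurd h4 hm0
      · exact absurd h4 hr0
    · exact h3
  have k5 : (m : ZMod q) = r := by
    rw [hs]
    push_cast
    rw [k4, add_zero]
  have k6 : (r : ZMod q) = -1 := by
    have g1 := congrArg (fun P : (ZMod q)[X] => (derivative P).eval 0) k2
    simp only [derivative_mul, derivative_sub, derivative_C, derivative_X, derivative_one,
      derivative_pow, eval_add, eval_mul, eval_sub, eval_C, eval_pow, eval_X, eval_one,
      zero_mul, mul_zero, zero_add, zero_sub, sub_zero, mul_one, one_mul,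
      zero_pow (show m - 1 ≠ 0 by omega), zero_pow (show s - 1 ≠ 0 by omega),
      zero_pow (show s ≠ 0 by omega), zero_pow (show m ≠ 0 by omega),
      zero_pow (show r ≠ 0 by omega), zero_pow (show r - 1 ≠ 0 by omega), hmo.neg_one_pow] at g1
    have he : Even (m - 1) := by
      obtain ⟨a, ha⟩ := hmo
      exact ⟨a, by omega⟩
    rw [he.neg_one_pow] at g1
    have g2 : (m : ZMod q) * (r + 1) = 0 := by linear_combination -g1
    rcases mul_eq_zero.1 g2 with h3 | h3
    · exact absurd h3 hm0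
    · linear_combination h3
  have k7 : ((X - 1) ^ (m + 1) : (ZMod q)[X]) = (X ^ (r + 1) - 1) * (X ^ s - 1) := by
    rw [k5, k6] at k2
    have g1 : (C (-1) : (ZMod q)[X]) = -1 := by simp
    rw [g1] at k2
    rw [pow_succ]
    rw [e4] at k2
    linear_combination -k2
  obtain ⟨k, hk⟩ := pow_of_dvd (q := q) (u := r + 1) (N := m + 1) (by omega)
    (by rw [k7]; exact dvd_mul_right _ _)
  obtain ⟨i, hi⟩ := pow_of_dvd (q := q) (u := s) (N := m + 1) (by omega)
    (by rw [k7]; exact dvd_mul_left _ _)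
  refine ⟨k, i, ?_, ?_, hk, by rw [hs, hi]⟩
  · rcases Nat.eq_zero_or_pos i with h0 | h0
    · rw [h0, pow_zero] at hi
      omega
    · exact h0
  · have : q ^ i < q ^ k := by omega
    exact (Nat.pow_lt_pow_iff_right hq.out.one_lt).1 this

/-- square factors are larger than `(2 r) ^ 2` -/
theorem square2 {q r M : ℕ} (hq : q.Prime) (hqo : Odd q) (hr : 2 ≤ r)
    (hc : Nat.Coprime (M * q ^ 2) r)
    (h : (X ^ r - 1 : (ZMod (q ^ 2))[X]) ∣ (X - 1) ^ (M * q ^ 2) - (X ^ (M * q ^ 2) - 1)) :
    2 * r < q := by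
  have : Fact q.Prime := ⟨hq⟩
  have hqr : ¬ q ∣ r := fun h1 => hq.one_lt.ne' (Nat.eq_one_of_dvd_coprimes hc
    ((dvd_pow_self q two_ne_zero).mul_left M) h1)
  have hr0 := ne_zero_of_not_dvd hqr
  have h1 := local_q hq (by omega) hc h
  -- the quotient
  have h7 : C (q : ℤ) ∣ FF ℤ q := by
    rw [← map_eq_zero_iff', map_FF]
    unfold FF
    rw [sub_pow_char, one_pow, sub_self]
  obtain ⟨H, hH⟩ := h7
  have hCq : (C (q : ℤ) : ℤ[X]) ≠ 0 := by
    rw [Ne, C_eq_zero]
    exact_mod_cast hq.ne_zero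
  have hCz : (C (q : ℤ) : ℤ[X]).map (Int.castRingHom (ZMod q)) = 0 := by
    rw [map_C]
    simp
  have hWq := monic_W (R := ZMod q) (by omega : r ≠ 0)
  have h2 : (X ^ r - 1 : (ZMod q)[X]) ∣ H.map (Int.castRingHom (ZMod q)) := by
    have g1 : (X ^ r - 1 : (ZMod (q ^ 2))[X]) ∣ (FF ℤ q).map (Int.castRingHom (ZMod (q ^ 2))) := by
      rw [map_FF]
      exact h1
    obtain ⟨V, U, hVU⟩ := lift_dvd g1
    have g2 : C ((q ^ 2 : ℕ) : ℤ) = (C (q : ℤ) * C (q : ℤ) : ℤ[X]) := by
      rw [← C_mul]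
      congr 1
      push_cast
      ring
    rw [g2, hH] at hVU
    have g3 : C (q : ℤ) ∣ V := by
      rw [← map_eq_zero_iff']
      have g4 := congrArg (fun P : ℤ[X] => P.map (Int.castRingHom (ZMod q))) hVU
      simp only [Polynomial.map_mul, Polynomial.map_add, hCz, zero_mul, add_zero, map_W] at g4
      rcases mul_eq_zero.1 g4.symm with h13 | h13
      · exact absurd h13 hWq.ne_zero
      · exact h13
    obtain ⟨V', hV'⟩ := g3
    have g4 : H = (X ^ r - 1) * V' + C (q : ℤ) * U := by
      apply mul_left_cancel₀ hCq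
      rw [hVU, hV']
      ring
    have g5 := congrArg (fun P : ℤ[X] => P.map (Int.castRingHom (ZMod q))) g4
    simp only [Polynomial.map_mul, Polynomial.map_add, hCz, zero_mul, add_zero, map_W] at g5
    rw [g5]
    exact dvd_mul_right _ _
  have hq2 : 1 < q := hq.one_lt
  have hc1 : H.coeff 1 = 1 := by
    have a1 := FF_coeff_one (R := ℤ) hqo hq2
    rw [hH, coeff_C_mul] at a1
    have : (q : ℤ) ≠ 0 := by exact_mod_cast hq.ne_zero
    exact mul_left_cancel₀ this (by rw [a1, mul_one])
  have hc0 : H.coeff 0 = 0 := by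
    have a1 := FF_coeff_zero (R := ℤ) hqo
    rw [hH, coeff_C_mul] at a1
    have : (q : ℤ) ≠ 0 := by exact_mod_cast hq.ne_zero
    rcases mul_eq_zero.1 a1 with h | h
    · exact absurd h this
    · exact h
  have hd : H.natDegree < q := by
    have a1 := FF_natDegree (R := ℤ) hq2
    rw [hH, natDegree_C_mul (by exact_mod_cast hq.ne_zero)] at a1
    exact a1
  set Hq : (ZMod q)[X] := H.map (Int.castRingHom (ZMod q)) with hHq
  have hc1' : Hq.coeff 1 = 1 := by rw [hHq, coeff_map, hc1, map_one]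
  have hc0' : Hq.coeff 0 = 0 := by rw [hHq, coeff_map, hc0, map_zero]
  have hne : Hq ≠ 0 := by
    intro h0
    rw [h0, coeff_zero] at hc1'
    exact zero_ne_one hc1'
  have hd' : Hq.natDegree < q := lt_of_le_of_lt natDegree_map_le hd
  have h3 := deg_bound (by omega) hne hd' h2 hc0'
  by_contra hcon
  obtain ⟨s, hs⟩ : ∃ s, q = r + s := ⟨q - r, by omega⟩
  have hs2 : 2 ≤ s := by omega
  have hsr : s < r := by
    rcases Nat.lt_or_ge s r with h3 | h3
    · exact h3
    · exfalso
      have : q = 2 * r := by omega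
      rw [this] at hqo
      exact (Nat.not_odd_iff_even.2 (even_two_mul r)) hqo
  obtain ⟨Q, hQ⟩ := h2
  have hdQ : Q.natDegree < s := by
    have hQ0 : Q ≠ 0 := by
      rintro rfl
      rw [mul_zero] at hQ
      exact hne hQ
    rw [hQ, hWq.natDegree_mul' hQ0, natDegree_W] at hd'
    omega
  -- the derivative of the quotient
  have e1 : (X - 1 : ℤ[X]) * derivative ((X - 1) ^ q) = C (q : ℤ) * (X - 1) ^ q := by
    rw [X_mul_deriv (by omega)]
    simp
  have e2 : (X : ℤ[X]) * derivative (X ^ q) = C (q : ℤ) * X ^ q := by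
    rw [X_mul_deriv (by omega)]
    simp
  have e3 : (X - 1 : ℤ[X]) * (X * derivative H) = X * (X - 1) ^ q - (X - 1) * X ^ q := by
    apply mul_left_cancel₀ hCq
    have g1 := congrArg derivative hH
    rw [derivative_C_mul] at g1
    unfold FF at g1
    rw [derivative_sub, derivative_sub, derivative_one] at g1
    linear_combination X * e1 - (X - 1) * e2 - ((X - 1) * X) * g1
  have e4 : (X - 1) * (X * derivative ((X ^ r - 1) * Q)) =
      (X ^ r - 1) * X ^ s + C (1 : ZMod q) * (X ^ s - X) := by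
    rw [← hQ]
    have g1 := congrArg (fun P : ℤ[X] => P.map (Int.castRingHom (ZMod q))) e3
    simp only [Polynomial.map_mul, Polynomial.map_sub, Polynomial.map_pow, Polynomial.map_X,
      Polynomial.map_one, ← derivative_map] at g1
    rw [← hHq, sub_pow_char, one_pow] at g1
    rw [g1, C_1]
    have g2 : (X ^ q : (ZMod q)[X]) = X ^ r * X ^ s := by rw [← pow_add, ← hs]
    rw [g2]
    ring
  have k1 := key_identity (by omega) (by omega) hsr hdQ e4
  have k2 : C (r : ZMod q) * ((X - 1) * Hq) = (X ^ r - 1) * (X ^ s - X) := by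
    rw [hQ]
    rw [C_1] at k1
    linear_combination (X ^ r - 1) * k1
  have k3 : (r : ZMod q) = -1 := by
    have g1 := congrArg (fun P : (ZMod q)[X] => (derivative P).eval 0) k2
    have g2 : Hq.eval 0 = 0 := by rw [← coeff_zero_eq_eval_zero, hc0']
    have g3 : (derivative Hq).eval 0 = 1 := by
      rw [← coeff_zero_eq_eval_zero, coeff_derivative]
      simp [hc1']
    simp only [derivative_mul, derivative_sub, derivative_C, derivative_X, derivative_one,
      derivative_pow, eval_add, eval_mul, eval_sub, eval_C, eval_pow, eval_X, eval_one,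
      zero_mul, mul_zero, zero_add, zero_sub, sub_zero, mul_one, one_mul,
      zero_pow (show s - 1 ≠ 0 by omega),
      zero_pow (show s ≠ 0 by omega),
      zero_pow (show r ≠ 0 by omega), zero_pow (show r - 1 ≠ 0 by omega), g2, g3] at g1
    linear_combination -g1
  have k4 : ((r + 1 : ℕ) : ZMod q) = 0 := by
    push_cast
    rw [k3]
    ring
  rw [ZMod.natCast_eq_zero_iff] at k4
  have := Nat.le_of_dvd (by omega) k4
  omega

end Pool.Agent.H881.AK
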